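import Mathlib
import Pool.Agent.Lib.Pb4bd03.Bounds
import Pool.Agent.Lib.Pb4bd03.Lower

namespace Pool.Agent.Results.MP_b4bd03_co.UpperBound

open Pb4bd03

theorem upper_L {k m : ℕ} (h : ∀ s, IsMinimal k s → s.length ≤ m) : L k ≤ m := by
  unfold L
  refine iSup_le (fun s => iSup_le (fun hs => ?_))
  exact_mod_cast h s hs

theorem lower_L {k m : ℕ} {s : List ℕ} (hs : IsMinimal k s) (hl : s.length = m) :
    (m : ℕ∞) ≤ L k := by
  unfold L
  rw [← hl]
  exact le_iSup₂ (f := fun (s : List ℕ) (_ : IsMinimal k s) => (s.length : ℕ∞)) s hs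

/-- For every `k ≥ 3`, `L(k) ≤ ⌊(4k² + 3k - 4)/3⌋`; and `L(3) = 13`, `L(4) = 22`, `L(5) = 33`. -/
theorem result :
    (∀ k : ℕ, 3 ≤ k → L k ≤ (((4 * k ^ 2 + 3 * k - 4) / 3 : ℕ) : ℕ∞)) ∧
      L 3 = 13 ∧ L 4 = 22 ∧ L 5 = 33 := by
  refine ⟨?_, ?_, ?_, ?_⟩
  · intro k hk
    apply upper_L
    intro s hs
    have := upper_quad hk hs
    rw [Nat.le_div_iff_mul_le (by norm_num)]
    omega
  · exact le_antisymm (upper_L (m := 13) fun s hs => upper3 hs) (lower_L (m := 13) min3 rfl)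
  · exact le_antisymm (upper_L (m := 22) fun s hs => upper4 hs) (lower_L (m := 22) min4 rfl)
  · exact le_antisymm (upper_L (m := 33) fun s hs => upper5 hs) (lower_L (m := 33) min5 rfl)

end Pool.Agent.Results.MP_b4bd03_co.UpperBound
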